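import Mathlib

set_option autoImplicit false
open scoped BigOperators

namespace Pool.Agent.H.MP_813774_gt

variable {n : ℕ}

/-- imaginary part of `conj a * b` -/
def im2 (a b : ℂ) : ℝ := a.re * b.im - a.im * b.re

noncomputable def imL (a : ℂ) : ℂ →L[ℝ] ℝ := a.re • Complex.imCLM - a.im • Complex.reCLM

@[simp] lemma imL_apply (a b : ℂ) : imL a b = im2 a b := by simp [imL, im2]

noncomputable def pr (m : Fin n) : (Fin n → ℂ) →L[ℝ] ℂ := ContinuousLinearMap.proj m

@[simp] lemma pr_apply (m : Fin n) (v : Fin n → ℂ) : pr m v = v m := rfl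

noncomputable def sq2 (x : Fin n → ℂ) : ℝ := ∑ m, Complex.normSq (x m)

noncomputable def om0 (x : Fin n → ℂ) : (Fin n → ℂ) →L[ℝ] ℝ :=
  (sq2 x)⁻¹ • ∑ m, (imL (x m)).comp (pr m)

lemma om0_apply (x v : Fin n → ℂ) : om0 x v = (sq2 x)⁻¹ * ∑ m, im2 (x m) (v m) := by
  simp [om0, ContinuousLinearMap.sum_apply]

noncomputable def al (x : Fin n → ℂ) (j k : Fin n) : (Fin n → ℂ) →L[ℝ] ℝ :=
  (Complex.normSq (x j - x k))⁻¹ • (imL (x j - x k)).comp (pr j - pr k)

lemma al_apply (x v : Fin n → ℂ) (j k : Fin n) :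
    al x j k v = (Complex.normSq (x j - x k))⁻¹ * im2 (x j - x k) (v j - v k) := by
  simp only [al, ContinuousLinearMap.smul_apply, ContinuousLinearMap.comp_apply,
    ContinuousLinearMap.sub_apply, pr_apply, imL_apply, smul_eq_mul]

noncomputable def ps (x : Fin n → ℂ) (j k : Fin n) : ℝ :=
  if j = k then 0 else Real.smoothTransition (1 - (n : ℝ) ^ 2 * ((x j).re - (x k).re) ^ 2)

lemma ps_nonneg (x : Fin n → ℂ) (j k : Fin n) : 0 ≤ ps x j k := by
  unfold ps; split_ifs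
  · exact le_rfl
  · exact Real.smoothTransition.nonneg _

noncomputable def S (x : Fin n → ℂ) : ℝ := ∑ j, ∑ k, ps x j k

lemma S_nonneg (x : Fin n → ℂ) : 0 ≤ S x :=
  Finset.sum_nonneg fun _ _ => Finset.sum_nonneg fun _ _ => ps_nonneg _ _ _

noncomputable def om (x : Fin n → ℂ) : (Fin n → ℂ) →L[ℝ] ℝ :=
  om0 x + ((n : ℝ) ^ 3) • ∑ j, ∑ k, ps x j k • al x j k

lemma om_apply (x v : Fin n → ℂ) :
    om x v = om0 x v + (n : ℝ) ^ 3 * ∑ j, ∑ k, ps x j k * al x j k v := by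
  simp [om, ContinuousLinearMap.sum_apply]

noncomputable def N (x : Fin n → ℂ) : ℝ := 1 + (n : ℝ) ^ 3 * S x

lemma one_le_N (x : Fin n → ℂ) : 1 ≤ N x := by
  have := S_nonneg x
  have : 0 ≤ (n : ℝ) ^ 3 * S x := by positivity
  unfold N; linarith

noncomputable def ip (v w : Fin n → ℂ) : ℝ := ∑ m, ((v m).re * (w m).re + (v m).im * (w m).im)

noncomputable def be (x : Fin n → ℂ) (j k : Fin n) : (Fin n → ℂ) →L[ℝ] ℝ :=
  om x - N x • al x j k

lemma be_apply (x v : Fin n → ℂ) (j k : Fin n) : be x j k v = om x v - N x * al x j k v := by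
  simp [be]

noncomputable def gg (x : Fin n → ℂ) : (Fin n → ℂ) →L[ℝ] (Fin n → ℂ) →L[ℝ] ℝ :=
  ((n : ℝ) ^ 4)⁻¹ • (∑ m, ((Complex.reCLM.comp (pr m)).smulRight (Complex.reCLM.comp (pr m)) +
      (Complex.imCLM.comp (pr m)).smulRight (Complex.imCLM.comp (pr m))))
    + (∑ j, ∑ k, ps x j k • (be x j k).smulRight (be x j k)) - (om x).smulRight (om x)

lemma gg_apply (x v w : Fin n → ℂ) : gg x v w = ((n : ℝ) ^ 4)⁻¹ * ip v w
    + (∑ j, ∑ k, ps x j k * (be x j k v * be x j k w)) - om x v * om x w := by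
  simp [gg, ip, ContinuousLinearMap.sum_apply]

noncomputable def TT (x : Fin n → ℂ) : Fin n → ℂ := fun m => Complex.I * x m

lemma gg_symm (x v w : Fin n → ℂ) : gg x v w = gg x w v := by
  simp only [gg_apply, ip, mul_comm]

section perm
variable (ρ : Equiv.Perm (Fin n)) (x v w : Fin n → ℂ)

lemma om0_perm : om0 (fun m => x (ρ m)) (fun m => v (ρ m)) = om0 x v := by
  simp only [om0_apply, sq2]
  rw [Equiv.sum_comp ρ (fun m => Complex.normSq (x m)),
    Equiv.sum_comp ρ (fun m => im2 (x m) (v m))]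

lemma ps_perm (j k : Fin n) : ps (fun m => x (ρ m)) j k = ps x (ρ j) (ρ k) := by
  simp [ps]

lemma al_perm (j k : Fin n) :
    al (fun m => x (ρ m)) j k (fun m => v (ρ m)) = al x (ρ j) (ρ k) v := by
  simp [al_apply]

lemma sum2_perm (f : Fin n → Fin n → ℝ) : ∑ j, ∑ k, f (ρ j) (ρ k) = ∑ j, ∑ k, f j k := by
  rw [← Equiv.sum_comp ρ (fun j => ∑ k, f j k)]
  exact Finset.sum_congr rfl fun j _ => Equiv.sum_comp ρ (fun k => f (ρ j) k)

lemma om_perm : om (fun m => x (ρ m)) (fun m => v (ρ m)) = om x v := by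
  simp only [om_apply, om0_perm, ps_perm, al_perm]
  rw [sum2_perm ρ (fun j k => ps x j k * al x j k v)]

lemma N_perm : N (fun m => x (ρ m)) = N x := by
  simp only [N, S, ps_perm]
  rw [sum2_perm ρ (fun j k => ps x j k)]

lemma gg_perm : gg (fun m => x (ρ m)) (fun m => v (ρ m)) (fun m => w (ρ m)) = gg x v w := by
  simp only [gg_apply, be_apply, om_perm, N_perm, ps_perm, al_perm, ip]
  rw [sum2_perm ρ (fun j k => ps x j k * ((om x v - N x * al x j k v) *
    (om x w - N x * al x j k w))),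
    Equiv.sum_comp ρ (fun m => (v m).re * (w m).re + (v m).im * (w m).im)]

end perm

def Xs (n : ℕ) : Set (Fin n → ℂ) := {f | Function.Injective f ∧ ∀ m, ‖f m‖ < 1}

lemma sq2_pos (hn : 2 ≤ n) {x : Fin n → ℂ} (hx : Function.Injective x) : 0 < sq2 x := by
  have h : ∃ m, x m ≠ 0 := by
    by_contra h
    push Not at h
    have := hx ((h ⟨0, by omega⟩).trans (h ⟨1, by omega⟩).symm)
    simp at this
  obtain ⟨m, hm⟩ := h
  exact Finset.sum_pos' (fun _ _ => Complex.normSq_nonneg _)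
    ⟨m, Finset.mem_univ _, Complex.normSq_pos.2 hm⟩

lemma sq2_le {x : Fin n → ℂ} (hx : ∀ m, ‖x m‖ < 1) : sq2 x ≤ n := by
  have : ∀ m, Complex.normSq (x m) ≤ 1 := fun m => by
    rw [Complex.normSq_eq_norm_sq]
    have := hx m
    have := norm_nonneg (x m)
    nlinarith
  calc sq2 x ≤ ∑ _m : Fin n, (1 : ℝ) := Finset.sum_le_sum fun m _ => this m
    _ = n := by simp

lemma cd_re (j : Fin n) : ContDiff ℝ ((⊤ : ℕ∞) : WithTop ℕ∞) (fun x : Fin n → ℂ => (x j).re) :=
  (Complex.reCLM.comp (pr j)).contDiff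

lemma cd_im (j : Fin n) : ContDiff ℝ ((⊤ : ℕ∞) : WithTop ℕ∞) (fun x : Fin n → ℂ => (x j).im) :=
  (Complex.imCLM.comp (pr j)).contDiff

lemma cd_ps (j k : Fin n) : ContDiff ℝ ((⊤ : ℕ∞) : WithTop ℕ∞) (fun x : Fin n → ℂ => ps x j k) := by
  unfold ps
  split_ifs
  · exact contDiff_const
  · exact Real.smoothTransition.contDiff.comp
      (contDiff_const.sub (contDiff_const.mul (((cd_re j).sub (cd_re k)).pow 2)))

lemma cd_om0 (hn : 2 ≤ n) (v : Fin n → ℂ) :
    ContDiffOn ℝ ((⊤ : ℕ∞) : WithTop ℕ∞) (fun x : Fin n → ℂ => om0 x v) (Xs n) := by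
  simp only [om0_apply]
  refine ContDiffOn.mul (ContDiffOn.inv ?_ fun x hx => (sq2_pos hn hx.1).ne') ?_
  · show ContDiffOn ℝ _ (fun x : Fin n → ℂ => ∑ m, Complex.normSq (x m)) _
    simp only [Complex.normSq_apply]
    exact (ContDiff.sum fun m _ => ((cd_re m).mul (cd_re m)).add
      ((cd_im m).mul (cd_im m))).contDiffOn
  · simp only [im2]
    exact (ContDiff.sum fun m _ => ((cd_re m).mul contDiff_const).sub
      ((cd_im m).mul contDiff_const)).contDiffOn

lemma cd_psal (v : Fin n → ℂ) (j k : Fin n) (h : j ≠ k) :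
    ContDiffOn ℝ ((⊤ : ℕ∞) : WithTop ℕ∞) (fun x : Fin n → ℂ => al x j k v) (Xs n) := by
  simp only [al_apply]
  refine ContDiffOn.mul (ContDiffOn.inv ?_ fun x hx => ?_) ?_
  · simp only [Complex.normSq_apply, Complex.sub_re, Complex.sub_im]
    exact ((((cd_re j).sub (cd_re k)).mul ((cd_re j).sub (cd_re k))).add
      (((cd_im j).sub (cd_im k)).mul ((cd_im j).sub (cd_im k)))).contDiffOn
  · exact (Complex.normSq_pos.2 (sub_ne_zero.2 fun e => h (hx.1 e))).ne'
  · simp only [im2, Complex.sub_re, Complex.sub_im]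
    exact ((((cd_re j).sub (cd_re k)).mul contDiff_const).sub
      (((cd_im j).sub (cd_im k)).mul contDiff_const)).contDiffOn

lemma cd_al (v : Fin n → ℂ) (j k : Fin n) :
    ContDiffOn ℝ ((⊤ : ℕ∞) : WithTop ℕ∞) (fun x : Fin n → ℂ => al x j k v) (Xs n) := by
  by_cases h : j = k
  · subst h
    simp only [al_apply, sub_self, map_zero, inv_zero, zero_mul]
    exact contDiffOn_const
  · exact cd_psal v j k h

lemma cd_om (hn : 2 ≤ n) (v : Fin n → ℂ) :
    ContDiffOn ℝ ((⊤ : ℕ∞) : WithTop ℕ∞) (fun x : Fin n → ℂ => om x v) (Xs n) := by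
  simp only [om_apply]
  exact (cd_om0 hn v).add (contDiffOn_const.mul (ContDiffOn.sum fun j _ =>
    ContDiffOn.sum fun k _ => (cd_ps j k).contDiffOn.mul (cd_al v j k)))

lemma cd_N : ContDiff ℝ ((⊤ : ℕ∞) : WithTop ℕ∞) (fun x : Fin n → ℂ => N x) := by
  simp only [N, S]
  exact contDiff_const.add (contDiff_const.mul (ContDiff.sum fun j _ =>
    ContDiff.sum fun k _ => cd_ps j k))

lemma cd_gg (hn : 2 ≤ n) : ContDiffOn ℝ ((⊤ : ℕ∞) : WithTop ℕ∞) (gg (n := n)) (Xs n) := by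
  rw [contDiffOn_clm_apply]
  intro v
  rw [contDiffOn_clm_apply]
  intro w
  simp only [gg_apply, be_apply]
  refine (contDiffOn_const.add (ContDiffOn.sum fun j _ => ContDiffOn.sum fun k _ =>
    (cd_ps j k).contDiffOn.mul (ContDiffOn.mul ?_ ?_))).sub ((cd_om hn v).mul (cd_om hn w))
  · exact (cd_om hn v).sub (cd_N.contDiffOn.mul (cd_al v j k))
  · exact (cd_om hn w).sub (cd_N.contDiffOn.mul (cd_al w j k))

lemma cont_TT : Continuous (TT (n := n)) := by
  unfold TT; fun_prop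

lemma al_TT {x : Fin n → ℂ} (hx : Function.Injective x) {j k : Fin n} (h : j ≠ k) :
    al x j k (TT x) = 1 := by
  have h0 : Complex.normSq (x j - x k) ≠ 0 :=
    (Complex.normSq_pos.2 (sub_ne_zero.2 fun e => h (hx e))).ne'
  rw [al_apply]
  have : im2 (x j - x k) (TT x j - TT x k) = Complex.normSq (x j - x k) := by
    simp [im2, TT, Complex.normSq_apply]; ring
  rw [this, inv_mul_cancel₀ h0]

lemma ps_al_TT {x : Fin n → ℂ} (hx : Function.Injective x) (j k : Fin n) :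
    ps x j k * al x j k (TT x) = ps x j k := by
  by_cases h : j = k
  · simp [ps, h]
  · rw [al_TT hx h, mul_one]

lemma om_TT (hn : 2 ≤ n) {x : Fin n → ℂ} (hx : Function.Injective x) : om x (TT x) = N x := by
  rw [om_apply, om0_apply]
  simp only [ps_al_TT hx]
  have : ∑ m, im2 (x m) (TT x m) = sq2 x := by
    refine Finset.sum_congr rfl fun m _ => ?_
    simp [im2, TT, Complex.normSq_apply]
  rw [this, inv_mul_cancel₀ (sq2_pos hn hx).ne']
  rfl

lemma ps_be_TT (hn : 2 ≤ n) {x : Fin n → ℂ} (hx : Function.Injective x) (j k : Fin n) (c : ℝ) :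
    ps x j k * (c * be x j k (TT x)) = 0 := by
  by_cases h : j = k
  · simp [ps, h]
  · rw [be_apply, al_TT hx h, om_TT hn hx]; simp

lemma gg_TT (hn : 2 ≤ n) {x : Fin n → ℂ} (hx : Function.Injective x) (v : Fin n → ℂ) :
    gg x v (TT x) = ((n : ℝ) ^ 4)⁻¹ * ip v (TT x) - om x v * N x := by
  rw [gg_apply, om_TT hn hx]
  simp only [ps_be_TT hn hx]
  simp

lemma ip_TT (x : Fin n → ℂ) : ip (TT x) (TT x) = sq2 x := by
  refine Finset.sum_congr rfl fun m _ => ?_
  simp [TT, Complex.normSq_apply]; ring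

lemma ip_nonneg (v : Fin n → ℂ) : 0 ≤ ip v v :=
  Finset.sum_nonneg fun m _ => by nlinarith [mul_self_nonneg (v m).re, mul_self_nonneg (v m).im]

lemma ip_pos {v : Fin n → ℂ} (hv : v ≠ 0) : 0 < ip v v := by
  obtain ⟨m, hm⟩ := Function.ne_iff.1 hv
  refine Finset.sum_pos' (fun m _ => ?_) ⟨m, Finset.mem_univ _, ?_⟩
  · nlinarith [mul_self_nonneg (v m).re, mul_self_nonneg (v m).im]
  · have := Complex.normSq_pos.2 hm
    rwa [Complex.normSq_apply] at this

lemma ip_cs (v w : Fin n → ℂ) : ip v w ^ 2 ≤ ip v v * ip w w := by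
  have key : ∀ t : ℝ, 0 ≤ ip w w * (t * t) + (2 * ip v w) * t + ip v v := fun t => by
    have h := ip_nonneg (fun m => v m + (t : ℂ) * w m)
    have : ip (fun m => v m + (t : ℂ) * w m) (fun m => v m + (t : ℂ) * w m) =
        ip w w * (t * t) + (2 * ip v w) * t + ip v v := by
      simp only [ip, Finset.sum_mul, Finset.mul_sum, ← Finset.sum_add_distrib]
      refine Finset.sum_congr rfl fun m _ => ?_
      simp; ring
    linarith
  have := discrim_le_zero key
  unfold discrim at this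
  nlinarith

lemma eps_sq2 (hn : 2 ≤ n) {x : Fin n → ℂ} (hx : ∀ m, ‖x m‖ < 1) :
    ((n : ℝ) ^ 4)⁻¹ * sq2 x < 1 := by
  have h2 : (2 : ℝ) ≤ n := by exact_mod_cast hn
  have h := sq2_le hx
  rw [inv_mul_lt_iff₀ (by positivity)]
  have : (n : ℝ) * 8 ≤ n ^ 4 := by
    have : (8 : ℝ) ≤ n ^ 3 := by
      calc (8 : ℝ) = 2 ^ 3 := by norm_num
        _ ≤ n ^ 3 := by gcongr
    nlinarith
  nlinarith

lemma mid_nonneg (x v : Fin n → ℂ) : 0 ≤ ∑ j, ∑ k, ps x j k * (be x j k v * be x j k v) :=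
  Finset.sum_nonneg fun j _ => Finset.sum_nonneg fun k _ =>
    mul_nonneg (ps_nonneg _ _ _) (mul_self_nonneg _)

lemma sign1 (hn : 2 ≤ n) {x : Fin n → ℂ} (hx : x ∈ Xs n) : gg x (TT x) (TT x) < 0 := by
  rw [gg_TT hn hx.1, om_TT hn hx.1, ip_TT]
  have := eps_sq2 hn hx.2
  have := one_le_N x
  nlinarith

/-- the mixed term is dominated -/
lemma mixed (hn : 2 ≤ n) {x : Fin n → ℂ} (hx : x ∈ Xs n) (v : Fin n → ℂ) (hv : v ≠ 0) :
    (((n : ℝ) ^ 4)⁻¹ * ip v (TT x)) ^ 2 < ((n : ℝ) ^ 4)⁻¹ * ip v v := by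
  have h1 := ip_cs v (TT x)
  rw [ip_TT] at h1
  have h2 := eps_sq2 hn hx.2
  have h3 := ip_pos hv
  have he : (0 : ℝ) < ((n : ℝ) ^ 4)⁻¹ := by
    have : (0 : ℝ) < n := by exact_mod_cast (by omega : 0 < n)
    positivity
  set e := ((n : ℝ) ^ 4)⁻¹
  calc (e * ip v (TT x)) ^ 2 = e ^ 2 * ip v (TT x) ^ 2 := by ring
    _ ≤ e ^ 2 * (ip v v * sq2 x) := by gcongr
    _ = (e * ip v v) * (e * sq2 x) := by ring
    _ < (e * ip v v) * 1 := by gcongr
    _ = _ := by ring

lemma sign2 (hn : 2 ≤ n) {x : Fin n → ℂ} (hx : x ∈ Xs n) (v : Fin n → ℂ) (hv : v ≠ 0)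
    (h : gg x (TT x) v = 0) : 0 < gg x v v := by
  rw [gg_symm, gg_TT hn hx.1] at h
  have h1 := mixed hn hx v hv
  have h2 := mid_nonneg x v
  have h3 := one_le_N x
  rw [gg_apply]
  have h4 : ((n : ℝ) ^ 4)⁻¹ * ip v (TT x) = om x v * N x := by linarith
  rw [h4] at h1
  have : om x v * om x v ≤ (om x v * N x) ^ 2 := by
    have : 1 ≤ N x ^ 2 := by nlinarith
    nlinarith [mul_self_nonneg (om x v)]
  linarith

lemma fut_iff (hn : 2 ≤ n) {x : Fin n → ℂ} (hx : x ∈ Xs n) (v : Fin n → ℂ)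
    (h : gg x v v < 0) : gg x v (TT x) < 0 ↔ 0 < om x v := by
  have hv : v ≠ 0 := by rintro rfl; simp at h
  have h1 := mixed hn hx v hv
  have h2 := mid_nonneg x v
  have h3 := one_le_N x
  rw [gg_apply] at h
  rw [gg_TT hn hx.1]
  have h5 : (((n : ℝ) ^ 4)⁻¹ * ip v (TT x)) ^ 2 < (om x v) ^ 2 := by nlinarith
  have h6 := abs_lt.1 (sq_lt_sq.1 h5)
  constructor
  · intro h7
    by_contra h8
    push Not at h8
    rw [abs_of_nonpos h8] at h6
    nlinarith [h6.1]
  · intro h7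
    rw [abs_of_pos h7] at h6
    nlinarith [h6.2]

lemma wall (hn : 2 ≤ n) {x : Fin n → ℂ} (hx : x ∈ Xs n) (v : Fin n → ℂ)
    (h : gg x v v < 0) (h' : gg x v (TT x) < 0) {j k : Fin n} (hr : (x j).re = (x k).re)
    (hi : (x k).im < (x j).im) : (v j).re < (v k).re := by
  have ho := (fut_iff hn hx v h).1 h'
  have hjk : j ≠ k := by rintro rfl; exact lt_irrefl _ hi
  have hp : ps x j k = 1 := by
    simp [ps, hjk, hr, Real.smoothTransition.one_of_one_le]
  have h1 : ps x j k * (be x j k v * be x j k v) ≤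
      ∑ j, ∑ k, ps x j k * (be x j k v * be x j k v) := by
    refine le_trans ?_ (Finset.single_le_sum (f := fun j => ∑ k, ps x j k *
      (be x j k v * be x j k v)) (fun j _ => Finset.sum_nonneg fun k _ =>
        mul_nonneg (ps_nonneg _ _ _) (mul_self_nonneg _)) (Finset.mem_univ j))
    exact Finset.single_le_sum (f := fun k => ps x j k * (be x j k v * be x j k v))
      (fun k _ => mul_nonneg (ps_nonneg _ _ _) (mul_self_nonneg _)) (Finset.mem_univ k)
  rw [gg_apply] at h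
  have h2 : 0 ≤ ((n : ℝ) ^ 4)⁻¹ * ip v v := mul_nonneg (by positivity) (ip_nonneg v)
  rw [hp, be_apply] at h1
  have h3 := one_le_N x
  have h4 : 0 < N x * al x j k v := by
    by_contra h5
    push Not at h5
    nlinarith
  have h5 : 0 < al x j k v := by
    by_contra h5
    push Not at h5
    nlinarith
  rw [al_apply] at h5
  have h6 : 0 < im2 (x j - x k) (v j - v k) := by
    by_contra h6
    push Not at h6
    have := mul_nonpos_of_nonneg_of_nonpos
      (inv_nonneg.2 (Complex.normSq_nonneg (x j - x k))) h6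
    linarith
  simp only [im2, Complex.sub_re, Complex.sub_im, hr, sub_self, zero_mul] at h6
  nlinarith

end Pool.Agent.H.MP_813774_gt
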