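import Pool.Agent.H.MP_813774_gt.A

set_option autoImplicit false
open scoped BigOperators

namespace Pool.Agent.H.MP_813774_gt

variable {n : ℕ}

noncomputable def sg (i : ℕ) (ρ : Equiv.Perm (Fin n)) (s : ℝ) : Fin n → ℂ := fun m =>
  if ((ρ m : ℕ)) = i then
    (((2 * (i : ℝ) + 2) / (n : ℝ) - 1 : ℝ) : ℂ)
      - ((1 / (n : ℝ) : ℝ) : ℂ) * Complex.exp ((Real.pi : ℂ) * (s : ℂ) * Complex.I)
  else if ((ρ m : ℕ)) = i + 1 then
    (((2 * (i : ℝ) + 2) / (n : ℝ) - 1 : ℝ) : ℂ)
      + ((1 / (n : ℝ) : ℝ) : ℂ) * Complex.exp ((Real.pi : ℂ) * (s : ℂ) * Complex.I)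
  else (((2 * ((ρ m : ℕ) : ℝ) + 1) / (n : ℝ) - 1 : ℝ) : ℂ)

noncomputable def ex (s : ℝ) : ℂ := Complex.exp ((Real.pi : ℂ) * (s : ℂ) * Complex.I)

lemma ex_re (s : ℝ) : (ex s).re = Real.cos (Real.pi * s) := by
  unfold ex
  rw [← Complex.ofReal_mul, Complex.exp_ofReal_mul_I_re]

lemma ex_im (s : ℝ) : (ex s).im = Real.sin (Real.pi * s) := by
  unfold ex
  rw [← Complex.ofReal_mul, Complex.exp_ofReal_mul_I_im]

noncomputable def sv (i : ℕ) (ρ : Equiv.Perm (Fin n)) (s : ℝ) : Fin n → ℂ := fun m =>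
  if ((ρ m : ℕ)) = i then - (((1 / (n : ℝ) : ℝ) : ℂ) * (ex s * (Real.pi * Complex.I)))
  else if ((ρ m : ℕ)) = i + 1 then ((1 / (n : ℝ) : ℝ) : ℂ) * (ex s * (Real.pi * Complex.I))
  else 0

lemma ex_deriv (s : ℝ) : HasDerivAt ex (ex s * (Real.pi * Complex.I)) s := by
  have h : HasDerivAt (fun s : ℝ => (Real.pi : ℂ) * (s : ℂ) * Complex.I)
      (Real.pi * Complex.I) s := by
    simpa using ((Complex.ofRealCLM.hasDerivAt (x := s)).const_mul (Real.pi : ℂ)).mul_const
      Complex.I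
  exact h.cexp

lemma ex_cd : ContDiff ℝ ((⊤ : ℕ∞) : WithTop ℕ∞) ex := by
  unfold ex
  exact ((contDiff_const.mul Complex.ofRealCLM.contDiff).mul contDiff_const).cexp

lemma sg_deriv (i : ℕ) (ρ : Equiv.Perm (Fin n)) (s : ℝ) :
    HasDerivAt (sg i ρ) (sv i ρ s) s := by
  rw [hasDerivAt_pi]
  intro m
  unfold sg sv
  split_ifs
  · exact ((ex_deriv s).const_mul _).const_sub _
  · exact ((ex_deriv s).const_mul _).const_add _
  · exact hasDerivAt_const _ _

lemma sg_cd (i : ℕ) (ρ : Equiv.Perm (Fin n)) :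
    ContDiff ℝ ((⊤ : ℕ∞) : WithTop ℕ∞) (sg i ρ) := by
  rw [contDiff_pi]
  intro m
  unfold sg
  split_ifs
  · exact contDiff_const.sub (contDiff_const.mul ex_cd)
  · exact contDiff_const.add (contDiff_const.mul ex_cd)
  · exact contDiff_const

lemma sg_re (i : ℕ) (ρ : Equiv.Perm (Fin n)) (s : ℝ) (m : Fin n) : (sg i ρ s m).re =
    (if ((ρ m : ℕ)) = i then 2 * (i : ℝ) + 2 - Real.cos (Real.pi * s)
    else if ((ρ m : ℕ)) = i + 1 then 2 * (i : ℝ) + 2 + Real.cos (Real.pi * s)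
    else 2 * ((ρ m : ℕ) : ℝ) + 1) / n - 1 := by
  unfold sg
  rw [← ex_re]
  split_ifs
  · simp only [Complex.sub_re, Complex.ofReal_re, Complex.re_ofReal_mul, ex]; ring
  · simp only [Complex.add_re, Complex.ofReal_re, Complex.re_ofReal_mul, ex]; ring
  · simp only [Complex.ofReal_re]

lemma sg_im (i : ℕ) (ρ : Equiv.Perm (Fin n)) (s : ℝ) (m : Fin n) : (sg i ρ s m).im =
    (if ((ρ m : ℕ)) = i then - Real.sin (Real.pi * s)
    else if ((ρ m : ℕ)) = i + 1 then Real.sin (Real.pi * s) else 0) / n := by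
  unfold sg
  rw [← ex_im]
  split_ifs
  · simp only [Complex.sub_im, Complex.ofReal_im, Complex.im_ofReal_mul, ex]; ring
  · simp only [Complex.add_im, Complex.ofReal_im, Complex.im_ofReal_mul, ex]; ring
  · simp only [Complex.ofReal_im]; simp

lemma sv_re (i : ℕ) (ρ : Equiv.Perm (Fin n)) (s : ℝ) (m : Fin n) : (sv i ρ s m).re =
    (if ((ρ m : ℕ)) = i then Real.sin (Real.pi * s)
    else if ((ρ m : ℕ)) = i + 1 then - Real.sin (Real.pi * s) else 0) * Real.pi / n := by
  unfold sv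
  rw [← ex_im]
  split_ifs
  · simp only [Complex.neg_re, Complex.re_ofReal_mul]; simp; ring
  · simp only [Complex.re_ofReal_mul]; simp; ring
  · simp

lemma sv_im (i : ℕ) (ρ : Equiv.Perm (Fin n)) (s : ℝ) (m : Fin n) : (sv i ρ s m).im =
    (if ((ρ m : ℕ)) = i then - Real.cos (Real.pi * s)
    else if ((ρ m : ℕ)) = i + 1 then Real.cos (Real.pi * s) else 0) * Real.pi / n := by
  unfold sv
  rw [← ex_re]
  split_ifs
  · simp only [Complex.neg_im, Complex.im_ofReal_mul]; simp; ring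
  · simp only [Complex.im_ofReal_mul]; simp; ring
  · simp

/-- real parts of pairs other than the moving pair are ordered with a gap -/
lemma sg_gap (hn : 2 ≤ n) (i : ℕ) (ρ : Equiv.Perm (Fin n)) (s : ℝ) (a b : Fin n)
    (hab : (ρ a : ℕ) < ρ b) (h : ¬ ((ρ a : ℕ) = i ∧ (ρ b : ℕ) = i + 1)) :
    (sg i ρ s a).re + 2 / n ≤ (sg i ρ s b).re := by
  have hn' : (0 : ℝ) < n := by exact_mod_cast (by omega : 0 < n)
  rw [sg_re, sg_re]
  have h1 := Real.cos_le_one (Real.pi * s)
  have h2 := Real.neg_one_le_cos (Real.pi * s)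
  have key : ∀ u w : ℝ, u + 2 ≤ w → u / n - 1 + 2 / n ≤ w / n - 1 := fun u w huw => by
    have : u / n + 2 / n ≤ w / n := by rw [← add_div]; gcongr
    linarith
  apply key
  have hc : ∀ p q : ℕ, p + 1 ≤ q → (p : ℝ) + 1 ≤ q := fun p q h => by exact_mod_cast h
  split_ifs with c1 c2 c3 c4 c5 c6 c7 c8
  · omega
  · exact absurd ⟨c1, c3⟩ h
  · have := hc (i + 1) (ρ b) (by omega); push_cast at this; linarith
  · omega
  · omega
  · have := hc (i + 1) (ρ b) (by omega); push_cast at this; linarith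
  · have := hc (ρ a) i (by omega); linarith
  · have := hc (ρ a) i (by omega); linarith
  · have := hc (ρ a) (ρ b) (by omega); linarith

lemma sum_two (i : ℕ) (hi : i + 1 < n) (ρ : Equiv.Perm (Fin n)) (f : Fin n → ℝ) (A B : ℝ)
    (hA : ∀ m, (ρ m : ℕ) = i → f m = A) (hB : ∀ m, (ρ m : ℕ) = i + 1 → f m = B)
    (h0 : ∀ m, (ρ m : ℕ) ≠ i → (ρ m : ℕ) ≠ i + 1 → f m = 0) : ∑ m, f m = A + B := by
  have hne : ρ.symm ⟨i, by omega⟩ ≠ ρ.symm ⟨i + 1, hi⟩ := by
    intro e; have := ρ.symm.injective e; simp at this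
  rw [Fintype.sum_eq_add _ _ hne, hA _ (by simp), hB _ (by simp)]
  intro m hm
  refine h0 m (fun e => hm.1 ?_) (fun e => hm.2 ?_)
  · rw [Equiv.eq_symm_apply]; exact Fin.ext e
  · rw [Equiv.eq_symm_apply]; exact Fin.ext e

lemma sg_mem (hn : 2 ≤ n) (i : ℕ) (hi : i + 1 < n) (ρ : Equiv.Perm (Fin n)) (s : ℝ) :
    sg i ρ s ∈ Xs n := by
  have hn' : (0 : ℝ) < n := by exact_mod_cast (by omega : 0 < n)
  have hsc := Real.sin_sq_add_cos_sq (Real.pi * s)
  have h1 := Real.cos_le_one (Real.pi * s)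
  have h2 := Real.neg_one_le_cos (Real.pi * s)
  constructor
  · have key : ∀ a b : Fin n, (ρ a : ℕ) < ρ b → sg i ρ s a ≠ sg i ρ s b := by
      intro a b hab e
      by_cases h : (ρ a : ℕ) = i ∧ (ρ b : ℕ) = i + 1
      · have e1 := congrArg Complex.re e
        have e2 := congrArg Complex.im e
        rw [sg_re, sg_re, if_pos h.1, if_neg (by omega), if_pos h.2] at e1
        rw [sg_im, sg_im, if_pos h.1, if_neg (by omega), if_pos h.2] at e2
        field_simp at e1 e2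
        have e3 : Real.cos (Real.pi * s) = 0 := by linarith
        have e4 : Real.sin (Real.pi * s) = 0 := by linarith
        rw [e3, e4] at hsc; norm_num at hsc
      · have := sg_gap hn i ρ s a b hab h
        rw [e] at this
        have : (0 : ℝ) < 2 / n := by positivity
        linarith
    intro a b e
    by_contra hne
    rcases lt_trichotomy (ρ a : ℕ) (ρ b) with h | h | h
    · exact key a b h e
    · exact hne (ρ.injective (Fin.ext h))
    · exact key b a h e.symm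
  · intro m
    have hi' : (i : ℝ) + 2 ≤ n := by exact_mod_cast hi
    have hi0 : (0 : ℝ) ≤ i := by positivity
    have hm : ((ρ m : ℕ) : ℝ) + 1 ≤ n := by exact_mod_cast (ρ m).2
    have hm0 : (0 : ℝ) ≤ ((ρ m : ℕ) : ℝ) := by positivity
    rw [← sq_lt_one_iff₀ (norm_nonneg _), ← Complex.normSq_eq_norm_sq, Complex.normSq_apply,
      sg_re, sg_im]
    have key : ∀ u w : ℝ, (u - n) ^ 2 + w ^ 2 < n ^ 2 →
        (u / n - 1) * (u / n - 1) + w / n * (w / n) < 1 := fun u w h => by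
      have : (u / n - 1) * (u / n - 1) + w / n * (w / n) = ((u - n) ^ 2 + w ^ 2) / n ^ 2 := by
        field_simp
      rw [this, div_lt_one (by positivity)]; exact h
    apply key
    have hb : ∀ c : ℝ, -1 ≤ c → c ≤ 1 →
        (2 * (i : ℝ) + 2 - n) ^ 2 + 2 * (2 * (i : ℝ) + 2 - n) * c + 1 < n ^ 2 := by
      intro c hc1 hc2
      have hn2 : (2 : ℝ) ≤ n := by exact_mod_cast hn
      have a1 : |2 * (i : ℝ) + 2 - n| ≤ n - 2 := abs_le.2 ⟨by linarith, by linarith⟩
      have a2 : (2 * (i : ℝ) + 2 - n) * c ≤ n - 2 := by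
        calc (2 * (i : ℝ) + 2 - n) * c ≤ |(2 * (i : ℝ) + 2 - n) * c| := le_abs_self _
          _ = |2 * (i : ℝ) + 2 - n| * |c| := abs_mul _ _
          _ ≤ (n - 2) * 1 := by
            gcongr
            exact abs_le.2 ⟨hc1, hc2⟩
          _ = n - 2 := by ring
      have a3 : (2 * (i : ℝ) + 2 - n) ^ 2 ≤ (n - 2) ^ 2 := by
        apply sq_le_sq'; linarith; linarith
      nlinarith
    split_ifs
    · have := hb (-Real.cos (Real.pi * s)) (by linarith) (by linarith); nlinarith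
    · have := hb (Real.cos (Real.pi * s)) (by linarith) (by linarith); nlinarith
    · nlinarith

lemma sg_al (hn : 2 ≤ n) (i : ℕ) (ρ : Equiv.Perm (Fin n)) (s : ℝ) (a b : Fin n)
    (h : ps (sg i ρ s) a b ≠ 0) : al (sg i ρ s) a b (sv i ρ s) = Real.pi := by
  have hn' : (0 : ℝ) < n := by exact_mod_cast (by omega : 0 < n)
  have hsc := Real.sin_sq_add_cos_sq (Real.pi * s)
  have hab : a ≠ b := by rintro rfl; simp [ps] at h
  have h1 : (n : ℝ) ^ 2 * ((sg i ρ s a).re - (sg i ρ s b).re) ^ 2 < 1 := by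
    by_contra h1
    apply h
    simp only [ps, if_neg hab]
    exact Real.smoothTransition.zero_of_nonpos (by linarith)
  have key : ∀ a b : Fin n, (ρ a : ℕ) < ρ b →
      (n : ℝ) ^ 2 * ((sg i ρ s a).re - (sg i ρ s b).re) ^ 2 < 1 →
      (ρ a : ℕ) = i ∧ (ρ b : ℕ) = i + 1 := by
    intro a b hab h
    by_contra hc
    have h2 := sg_gap hn i ρ s a b hab hc
    have h3 : 2 ≤ n * ((sg i ρ s b).re - (sg i ρ s a).re) := by
      have : 2 / (n : ℝ) ≤ (sg i ρ s b).re - (sg i ρ s a).re := by linarith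
      rw [div_le_iff₀ hn'] at this; linarith
    nlinarith
  rw [al_apply]
  simp only [im2, Complex.normSq_apply, Complex.sub_re, Complex.sub_im]
  have fin : ∀ c t : ℝ, t ^ 2 + c ^ 2 = 1 → ((2 * c / n) * (2 * c / n) + (2 * t / n) * (2 * t / n))⁻¹ *
      ((2 * c / n) * (2 * c * Real.pi / n) - (2 * t / n) * (-(2 * t) * Real.pi / n)) = Real.pi := by
    intro c t h
    have e1 : (2 * c / n) * (2 * c / n) + (2 * t / n) * (2 * t / n) = 4 / (n : ℝ) ^ 2 := by
      field_simp; linarith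
    have e2 : (2 * c / n) * (2 * c * Real.pi / n) - (2 * t / n) * (-(2 * t) * Real.pi / n) =
        4 / (n : ℝ) ^ 2 * Real.pi := by
      rw [← e1]; ring
    rw [e1, e2, ← mul_assoc, inv_mul_cancel₀ (by positivity), one_mul]
  rcases lt_trichotomy (ρ a : ℕ) (ρ b) with h | h | h
  · obtain ⟨ha, hb⟩ := key a b h h1
    have hb' : ¬ (ρ b : ℕ) = i := by omega
    simp only [sg_re, sg_im, sv_re, sv_im, if_pos ha, if_neg hb', if_pos hb]
    refine Eq.trans ?_ (fin (-Real.cos (Real.pi * s)) (-Real.sin (Real.pi * s)) (by linarith))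
    congr 1
    · congr 1; ring
    · ring
  · exact absurd (ρ.injective (Fin.ext h)) hab
  · obtain ⟨hb, ha⟩ := key b a h (by linarith)
    have ha' : ¬ (ρ a : ℕ) = i := by omega
    simp only [sg_re, sg_im, sv_re, sv_im, if_pos ha, if_neg ha', if_pos hb]
    refine Eq.trans ?_ (fin (Real.cos (Real.pi * s)) (Real.sin (Real.pi * s)) (by linarith))
    congr 1
    · congr 1; ring
    · ring

lemma sg_time (hn : 2 ≤ n) (i : ℕ) (hi : i + 1 < n) (ρ : Equiv.Perm (Fin n)) (s : ℝ) :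
    gg (sg i ρ s) (sv i ρ s) (sv i ρ s) < 0 ∧ 0 < om (sg i ρ s) (sv i ρ s) := by
  have hn' : (0 : ℝ) < n := by exact_mod_cast (by omega : 0 < n)
  have hn2 : (2 : ℝ) ≤ n := by exact_mod_cast hn
  have hsc := Real.sin_sq_add_cos_sq (Real.pi * s)
  have hmem := sg_mem hn i hi ρ s
  set x := sg i ρ s with hx
  set v := sv i ρ s with hv
  have hpi := Real.pi_pos
  have e1 : ∑ m, im2 (x m) (v m) = Real.pi * (2 / n ^ 2) := by
    rw [sum_two i hi ρ _ (im2 (((2 * i + 2 - Real.cos (Real.pi * s)) / n - 1 : ℝ) +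
      ((-Real.sin (Real.pi * s)) / n : ℝ) * Complex.I)
      (((Real.sin (Real.pi * s)) * Real.pi / n : ℝ) +
      ((-Real.cos (Real.pi * s)) * Real.pi / n : ℝ) * Complex.I))
      (im2 (((2 * i + 2 + Real.cos (Real.pi * s)) / n - 1 : ℝ) +
      ((Real.sin (Real.pi * s)) / n : ℝ) * Complex.I)
      (((-Real.sin (Real.pi * s)) * Real.pi / n : ℝ) +
      ((Real.cos (Real.pi * s)) * Real.pi / n : ℝ) * Complex.I))]
    · simp only [im2, Complex.add_re, Complex.add_im, Complex.ofReal_re, Complex.ofReal_im,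
        Complex.re_ofReal_mul, Complex.im_ofReal_mul, Complex.I_re, Complex.I_im]
      field_simp
      linear_combination 2 * Real.pi * hsc
    · intro m hm
      simp only [im2, Complex.add_re, Complex.add_im, Complex.ofReal_re, Complex.ofReal_im,
        Complex.re_ofReal_mul, Complex.im_ofReal_mul, Complex.I_re, Complex.I_im, hx, hv,
        sg_re, sg_im, sv_re, sv_im, if_pos hm]
      ring
    · intro m hm
      have hm' : ¬ (ρ m : ℕ) = i := by omega
      simp only [im2, Complex.add_re, Complex.add_im, Complex.ofReal_re, Complex.ofReal_im,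
        Complex.re_ofReal_mul, Complex.im_ofReal_mul, Complex.I_re, Complex.I_im, hx, hv,
        sg_re, sg_im, sv_re, sv_im, if_pos hm, if_neg hm']
      ring
    · intro m h1 h2
      simp only [im2, hv, sv_re, sv_im, if_neg h1, if_neg h2]
      ring
  have e2 : ip v v = Real.pi ^ 2 * (2 / n ^ 2) := by
    unfold ip
    rw [sum_two i hi ρ _ (Real.pi ^ 2 / n ^ 2) (Real.pi ^ 2 / n ^ 2)]
    · ring
    · intro m hm
      simp only [hv, sv_re, sv_im, if_pos hm]
      field_simp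
      linear_combination hsc
    · intro m hm
      have hm' : ¬ (ρ m : ℕ) = i := by omega
      simp only [hv, sv_re, sv_im, if_pos hm, if_neg hm']
      field_simp
      linear_combination hsc
    · intro m h1 h2
      simp only [hv, sv_re, sv_im, if_neg h1, if_neg h2]
      ring
  have e3 : 2 / (n : ℝ) ^ 2 ≤ sq2 x := by
    have h1 := ip_cs v (TT x)
    have h2 : ip v (TT x) = ∑ m, im2 (x m) (v m) := by
      refine Finset.sum_congr rfl fun m _ => ?_
      simp [TT, im2]; ring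
    rw [h2, e1, e2, ip_TT] at h1
    have h3 : 0 < Real.pi ^ 2 * (2 / (n : ℝ) ^ 2) := by positivity
    by_contra h4
    push Not at h4
    nlinarith
  have e4 := sq2_le hmem.2
  have e5 := sq2_pos hn hmem.1
  set a := (sq2 x)⁻¹ * (2 / (n : ℝ) ^ 2) with ha
  have a1 : a ≤ 1 := by rw [ha, inv_mul_le_iff₀ e5]; linarith
  have a2 : 2 ≤ (n : ℝ) ^ 3 * a := by
    have : (n : ℝ)⁻¹ ≤ (sq2 x)⁻¹ := inv_anti₀ e5 e4
    calc (2 : ℝ) = n ^ 3 * ((n : ℝ)⁻¹ * (2 / (n : ℝ) ^ 2)) := by field_simp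
      _ ≤ _ := by rw [ha]; gcongr
  have a0 : 0 < a := by positivity
  have hps : ∀ j k, ps x j k * al x j k v = ps x j k * Real.pi := fun j k => by
    by_cases h : ps x j k = 0
    · simp [h]
    · rw [sg_al hn i ρ s j k h]
  have e6 : om x v = Real.pi * (a + (n : ℝ) ^ 3 * S x) := by
    rw [om_apply, om0_apply, e1]
    simp only [hps, ← Finset.sum_mul]
    unfold S
    rw [ha]; ring
  have e7 : ∑ j, ∑ k, ps x j k * (be x j k v * be x j k v) =
      S x * (Real.pi ^ 2 * (a - 1) ^ 2) := by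
    unfold S
    simp only [Finset.sum_mul]
    refine Finset.sum_congr rfl fun j _ => Finset.sum_congr rfl fun k _ => ?_
    by_cases h : ps x j k = 0
    · simp [h]
    · rw [be_apply, sg_al hn i ρ s j k h, e6, N]; ring
  have hS := S_nonneg x
  constructor
  · rw [gg_apply, e7, e6, e2]
    have b1 : ((n : ℝ) ^ 4)⁻¹ * (2 / n ^ 2) < a ^ 2 := by
      have : ((n : ℝ) ^ 4)⁻¹ * (2 / n ^ 2) = 2 / (n ^ 3) ^ 2 := by field_simp
      rw [this, div_lt_iff₀ (by positivity)]
      nlinarith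
    have b2 : S x * (a - 1) ^ 2 ≤ 2 * a * ((n : ℝ) ^ 3 * S x) := by
      have : (a - 1) ^ 2 ≤ 1 := by nlinarith
      nlinarith
    have b3 : ((n : ℝ) ^ 4)⁻¹ * (2 / n ^ 2) + S x * (a - 1) ^ 2 <
        (a + (n : ℝ) ^ 3 * S x) ^ 2 := by nlinarith [sq_nonneg ((n : ℝ) ^ 3 * S x)]
    have := mul_lt_mul_of_pos_left b3 (by positivity : 0 < Real.pi ^ 2)
    nlinarith
  · rw [e6]; positivity

end Pool.Agent.H.MP_813774_gt
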