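import Pool.Agent.H.MP_813774_gt.B

set_option autoImplicit false
open scoped BigOperators unitInterval

namespace Pool.Agent.H.MP_813774_gt

variable {n : ℕ}

abbrev XX (n : ℕ) := {f : Fin n → ℂ // Function.Injective f ∧ ∀ m, ‖f m‖ < 1}

def Word {P y : XX n} (c : Path P y) : Prop :=
  ∃ Γ : Path P y, Γ.Homotopic c ∧ ∃ k : ℕ, 1 ≤ k ∧ ∀ j : ℕ, j < k →
    ∃ i : ℕ, i + 1 < n ∧ ∃ ρ : Equiv.Perm (Fin n),
      ∀ (t : unitInterval) (s : ℝ), 0 ≤ s → s ≤ 1 → (t : ℝ) = ((j : ℝ) + s) / (k : ℝ) →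
        ∀ m : Fin n, (Γ t).1 m = sg i ρ s m

def Pos {P y : XX n} (c : Path P y) : Prop :=
  (∃ d : Path P y, d.Homotopic c ∧ ∀ t, d t = P) ∨ Word c

lemma Pos.hom {P y : XX n} {c c' : Path P y} (h : Pos c) (hc : c.Homotopic c') : Pos c' := by
  rcases h with ⟨d, hd, h⟩ | ⟨d, hd, h⟩
  · exact Or.inl ⟨d, hd.trans hc, h⟩
  · exact Or.inr ⟨d, hd.trans hc, h⟩

lemma step {P y z : XX n} (c : Path P y) (sig : Path y z) (i : ℕ) (hi : i + 1 < n)
    (ρ : Equiv.Perm (Fin n)) (hsg : ∀ s : I, (sig s).1 = sg i ρ s) (h : Pos c) :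
    Pos (c.trans sig) := by
  rcases h with ⟨d, hd, h⟩ | ⟨Γ, hΓ, k, hk, h⟩
  · have e : P = y := by rw [← h 1, d.target]
    subst e
    have e2 : d = Path.refl P := by ext1; funext t; exact h t
    subst e2
    refine Or.inr ⟨sig, ?_, 1, le_rfl, fun j hj => ⟨i, hi, ρ, fun t s _ _ ht m => ?_⟩⟩
    · exact (Path.Homotopic.refl_trans sig).symm.trans (hd.hcomp (Path.Homotopic.refl sig))
    · have : j = 0 := by omega
      subst this
      rw [hsg, ht]; simp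
  · have hk' : (1 : ℝ) ≤ k := by exact_mod_cast hk
    let g : ℝ → ℝ := fun t => max (t * (k + 1) / (2 * k)) (((k + 1) * t - k + 1) / 2)
    have hg : ∀ t : I, g t ∈ I := fun t => by
      have h0 := t.2.1
      have h1 := t.2.2
      refine ⟨le_max_of_le_left (by positivity), max_le ?_ ?_⟩
      · rw [div_le_one (by positivity)]; nlinarith
      · rw [div_le_one (by positivity)]; nlinarith
    let f : I → I := fun t => ⟨g t, hg t⟩
    have hf : Continuous f := by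
      refine Continuous.subtype_mk ?_ _
      simp only [g]; fun_prop
    have hf0 : f 0 = 0 := by
      ext; simp only [f, g, Set.Icc.coe_zero, zero_mul, zero_div, mul_zero]
      exact max_eq_left (by linarith)
    have hf1 : f 1 = 1 := by
      ext; simp only [f, g, Set.Icc.coe_one, one_mul, mul_one]
      rw [max_eq_right]
      · ring
      · rw [div_le_iff₀ (by positivity)]; nlinarith
    refine Or.inr ⟨(Γ.trans sig).reparam f hf hf0 hf1, ?_, k + 1, by omega, fun j hj => ?_⟩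
    · exact (Path.Homotopic.symm ⟨Path.Homotopy.reparam _ f hf hf0 hf1⟩).trans
        (hΓ.hcomp (Path.Homotopic.refl sig))
    · have hval : ∀ t : I, ((Γ.trans sig).reparam f hf hf0 hf1) t = (Γ.trans sig).extend (g t) := by
        intro t
        rw [Path.extend_apply _ (hg t)]; rfl
      rcases Nat.lt_succ_iff_lt_or_eq.1 hj with hj' | hj'
      · obtain ⟨i', hi', ρ', h'⟩ := h j hj'
        refine ⟨i', hi', ρ', fun t s hs0 hs1 ht m => ?_⟩
        have hj2 : (j : ℝ) + 1 ≤ k := by exact_mod_cast hj'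
        have hj0 : (0 : ℝ) ≤ j := by positivity
        have e1 : (t : ℝ) * (k + 1) = j + s := by rw [ht]; push_cast; field_simp
        have e2 : g t = (j + s) / (2 * k) := by
          simp only [g]
          rw [e1, mul_comm ((k : ℝ) + 1), e1]
          refine max_eq_left ?_
          rw [div_le_div_iff₀ (by positivity) (by positivity)]
          nlinarith [mul_nonneg (sub_nonneg.2 hk') (by linarith : (0 : ℝ) ≤ k - (j + s))]
        have hm : (j + s) / (k : ℝ) ∈ I :=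
          ⟨by positivity, by rw [div_le_one (by positivity)]; linarith⟩
        rw [hval, e2, Path.extend_trans_of_le_half _ _ (by
          rw [div_le_div_iff₀ (by positivity) (by positivity)]; linarith),
          show 2 * ((j + s) / (2 * (k : ℝ))) = (j + s) / k by field_simp,
          Path.extend_apply _ hm]
        exact h' _ s hs0 hs1 rfl m
      · subst hj'
        refine ⟨i, hi, ρ, fun t s hs0 hs1 ht m => ?_⟩
        have e1 : (t : ℝ) * (j + 1) = j + s := by rw [ht]; push_cast; field_simp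
        have e2 : g t = (s + 1) / 2 := by
          simp only [g]
          rw [e1, mul_comm ((j : ℝ) + 1), e1, max_eq_right]
          · ring
          · rw [div_le_div_iff₀ (by positivity) (by positivity)]
            nlinarith [mul_nonneg (sub_nonneg.2 hk') hs0]
        rw [hval, e2, Path.extend_trans_of_half_le _ _ (by linarith),
          show 2 * ((s + 1) / 2) - 1 = s by ring, Path.extend_apply _ ⟨hs0, hs1⟩, hsg]

lemma star_hom {S : Set (Fin n → ℂ)} (hS : S ⊆ Xs n) {o : Fin n → ℂ} (ho : StarConvex ℝ o S)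
    {a b : XX n} (γ δ : Path a b) (hγ : ∀ t, (γ t).1 ∈ S) (hδ : ∀ t, (δ t).1 ∈ S) :
    γ.Homotopic δ := by
  have ha : a.1 ∈ S := by simpa using hγ 0
  have hb : b.1 ∈ S := by simpa using hγ 1
  haveI := ho.contractibleSpace ⟨_, ha⟩
  let ι : C(S, XX n) := ⟨fun x => ⟨x.1, hS x.2⟩, by fun_prop⟩
  let γ' : Path (⟨a.1, ha⟩ : S) ⟨b.1, hb⟩ :=
    ⟨⟨fun t => ⟨(γ t).1, hγ t⟩, by fun_prop⟩, by simp, by simp⟩
  let δ' : Path (⟨a.1, ha⟩ : S) ⟨b.1, hb⟩ :=
    ⟨⟨fun t => ⟨(δ t).1, hδ t⟩, by fun_prop⟩, by simp, by simp⟩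
  exact (SimplyConnectedSpace.paths_homotopic γ' δ').map ι

lemma conv_hom {S : Set (Fin n → ℂ)} (hS : S ⊆ Xs n) (hc : Convex ℝ S)
    {a b : XX n} (γ δ : Path a b) (hγ : ∀ t, (γ t).1 ∈ S) (hδ : ∀ t, (δ t).1 ∈ S) :
    γ.Homotopic δ :=
  star_hom hS (hc.starConvex (hγ 0)) γ δ hγ hδ

lemma seg_exists {S : Set (Fin n → ℂ)} (hS : S ⊆ Xs n) (hc : Convex ℝ S) {a b : XX n}
    (ha : a.1 ∈ S) (hb : b.1 ∈ S) : ∃ γ : Path a b, ∀ t, (γ t).1 ∈ S := by
  have h : ∀ t : I, Path.segment a.1 b.1 t ∈ S := fun t =>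
    hc.segment_subset ha hb (by rw [← Path.range_segment]; exact ⟨t, rfl⟩)
  exact ⟨⟨⟨fun t => ⟨Path.segment a.1 b.1 t, hS (h t)⟩,
    (Path.segment a.1 b.1).continuous.subtype_mk _⟩, by simp, by simp⟩, h⟩

lemma trans_mem {S : Set (Fin n → ℂ)} {a b c : XX n} (γ : Path a b) (δ : Path b c)
    (hγ : ∀ t, (γ t).1 ∈ S) (hδ : ∀ t, (δ t).1 ∈ S) (t : I) : ((γ.trans δ) t).1 ∈ S := by
  rw [Path.trans_apply]; split_ifs
  · exact hγ _
  · exact hδ _

lemma cvx_lt {u v u' v' a b : ℝ} (ha : 0 ≤ a) (hb : 0 ≤ b) (hab : a + b = 1) (h : u < v)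
    (h' : u' < v') : a * u + b * u' < a * v + b * v' := by
  rcases ha.eq_or_lt with rfl | ha'
  · have : b = 1 := by linarith
    subst this; linarith
  · nlinarith [mul_pos ha' (sub_pos.2 h), mul_nonneg hb (sub_pos.2 h').le]

lemma cvx_norm {x y : Fin n → ℂ} {a b : ℝ} (ha : 0 ≤ a) (hb : 0 ≤ b) (hab : a + b = 1)
    (hx : ∀ m, ‖x m‖ < 1) (hy : ∀ m, ‖y m‖ < 1) (m : Fin n) : ‖(a • x + b • y) m‖ < 1 := by
  have := (convex_ball (0 : ℂ) 1) (mem_ball_zero_iff.2 (hx m)) (mem_ball_zero_iff.2 (hy m))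
    ha hb hab
  exact mem_ball_zero_iff.1 this

lemma cvx_re (x y : Fin n → ℂ) (a b : ℝ) (m : Fin n) :
    ((a • x + b • y) m).re = a * (x m).re + b * (y m).re := by simp

lemma cvx_im (x y : Fin n → ℂ) (a b : ℝ) (m : Fin n) :
    ((a • x + b • y) m).im = a * (x m).im + b * (y m).im := by simp

def Ch (ρ : Equiv.Perm (Fin n)) : Set (Fin n → ℂ) :=
  {w | (∀ m, ‖w m‖ < 1) ∧ ∀ a b, (ρ a : ℕ) < ρ b → (w a).re < (w b).re}

lemma Ch_sub (ρ : Equiv.Perm (Fin n)) : Ch ρ ⊆ Xs n := by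
  rintro w ⟨h1, h2⟩
  refine ⟨fun a b e => ?_, h1⟩
  rcases lt_trichotomy (ρ a : ℕ) (ρ b) with h | h | h
  · have := h2 a b h; rw [e] at this; exact absurd this (lt_irrefl _)
  · exact ρ.injective (Fin.ext h)
  · have := h2 b a h; rw [e] at this; exact absurd this (lt_irrefl _)

lemma Ch_cvx (ρ : Equiv.Perm (Fin n)) : Convex ℝ (Ch ρ) := by
  rintro x ⟨hx1, hx2⟩ y ⟨hy1, hy2⟩ a b ha hb hab
  refine ⟨cvx_norm ha hb hab hx1 hy1, fun p q h => ?_⟩
  rw [cvx_re, cvx_re]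
  exact cvx_lt ha hb hab (hx2 p q h) (hy2 p q h)

noncomputable def bs (ρ : Equiv.Perm (Fin n)) : Fin n → ℂ :=
  fun m => (((2 * ((ρ m : ℕ) : ℝ) + 1) / (n : ℝ) - 1 : ℝ) : ℂ)

lemma bs_mem (ρ : Equiv.Perm (Fin n)) : bs ρ ∈ Ch ρ := by
  constructor
  · intro m
    have hn' : (0 : ℝ) < n := by exact_mod_cast m.pos
    have hm : ((ρ m : ℕ) : ℝ) + 1 ≤ n := by exact_mod_cast (ρ m).2
    have hm0 : (0 : ℝ) ≤ ((ρ m : ℕ) : ℝ) := by positivity
    simp only [bs, Complex.norm_real, Real.norm_eq_abs, abs_lt]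
    constructor
    · have : 0 < (2 * ((ρ m : ℕ) : ℝ) + 1) / (n : ℝ) := by positivity
      linarith
    · have : (2 * ((ρ m : ℕ) : ℝ) + 1) / (n : ℝ) < 2 := by rw [div_lt_iff₀ hn']; linarith
      linarith
  · intro a b h
    have hn' : (0 : ℝ) < n := by exact_mod_cast a.pos
    have h' : ((ρ a : ℕ) : ℝ) < (ρ b : ℕ) := by exact_mod_cast h
    simp only [bs, Complex.ofReal_re]
    gcongr

noncomputable def base (ρ : Equiv.Perm (Fin n)) : XX n := ⟨bs ρ, Ch_sub ρ (bs_mem ρ)⟩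

def Q (ρ : Equiv.Perm (Fin n)) {P y : XX n} (γ : Path P y) : Prop :=
  ∃ η : Path y (base ρ), (∀ t, (η t).1 ∈ Ch ρ) ∧ Pos (γ.trans η)

lemma Q.hom {ρ : Equiv.Perm (Fin n)} {P y : XX n} {γ γ' : Path P y} (h : Q ρ γ)
    (hc : γ.Homotopic γ') : Q ρ γ' := by
  obtain ⟨η, h1, h2⟩ := h
  exact ⟨η, h1, h2.hom (hc.hcomp (Path.Homotopic.refl η))⟩

lemma L1 {ρ : Equiv.Perm (Fin n)} {P x z : XX n} {γ : Path P x} (h : Q ρ γ) (δ : Path x z)
    (hδ : ∀ t, (δ t).1 ∈ Ch ρ) : Q ρ (γ.trans δ) := by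
  obtain ⟨η, h1, h2⟩ := h
  obtain ⟨η', hη'⟩ := seg_exists (Ch_sub ρ) (Ch_cvx ρ) (a := z) (b := base ρ)
    (by simpa using hδ 1) (bs_mem ρ)
  refine ⟨η', hη', h2.hom ?_⟩
  refine Path.Homotopic.trans ?_ (Path.Homotopic.trans_assoc _ _ _).symm
  exact (Path.Homotopic.refl γ).hcomp
    (conv_hom (Ch_sub ρ) (Ch_cvx ρ) _ _ h1 (trans_mem _ _ hδ hη'))

def Rg (ρ : Equiv.Perm (Fin n)) (i : ℕ) : Set (Fin n → ℂ) :=
  {w | (∀ m, ‖w m‖ < 1) ∧
    (∀ a b, (ρ a : ℕ) < ρ b → ¬ ((ρ a : ℕ) = i ∧ (ρ b : ℕ) = i + 1) → (w a).re < (w b).re) ∧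
    ∀ a b, (ρ a : ℕ) = i → (ρ b : ℕ) = i + 1 → (w a).re = (w b).re → (w a).im < (w b).im}

lemma Rg_sub (ρ : Equiv.Perm (Fin n)) (i : ℕ) : Rg ρ i ⊆ Xs n := by
  rintro w ⟨h1, h2, h3⟩
  have key : ∀ a b, (ρ a : ℕ) < ρ b → w a ≠ w b := fun a b h e => by
    by_cases hc : (ρ a : ℕ) = i ∧ (ρ b : ℕ) = i + 1
    · have := h3 a b hc.1 hc.2 (by rw [e]); rw [e] at this; exact lt_irrefl _ this
    · have := h2 a b h hc; rw [e] at this; exact lt_irrefl _ this
  refine ⟨fun a b e => ?_, h1⟩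
  rcases lt_trichotomy (ρ a : ℕ) (ρ b) with h | h | h
  · exact absurd e (key a b h)
  · exact ρ.injective (Fin.ext h)
  · exact absurd e.symm (key b a h)

lemma sg_Rg (hn : 2 ≤ n) (i : ℕ) (hi : i + 1 < n) (ρ : Equiv.Perm (Fin n)) (s : ℝ)
    (h0 : 0 ≤ s) (h1 : s ≤ 1) : sg i ρ s ∈ Rg ρ i := by
  have hn' : (0 : ℝ) < n := by exact_mod_cast (by omega : 0 < n)
  refine ⟨(sg_mem hn i hi ρ s).2, fun a b h h' => ?_, fun a b ha hb e => ?_⟩
  · have := sg_gap hn i ρ s a b h h'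
    have : (0 : ℝ) < 2 / n := by positivity
    linarith
  · have hb' : ¬ (ρ b : ℕ) = i := by omega
    rw [sg_re, sg_re, if_pos ha, if_neg hb', if_pos hb] at e
    rw [sg_im, sg_im, if_pos ha, if_neg hb', if_pos hb]
    field_simp at e
    have e3 : Real.cos (Real.pi * s) = 0 := by linarith
    have hsc := Real.sin_sq_add_cos_sq (Real.pi * s)
    have := Real.sin_nonneg_of_nonneg_of_le_pi (x := Real.pi * s) (by have := Real.pi_pos; positivity)
      (by nlinarith [Real.pi_pos])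
    have h5 : 0 < Real.sin (Real.pi * s) := by
      rcases this.eq_or_lt with h | h
      · rw [← h, e3] at hsc; norm_num at hsc
      · exact h
    gcongr
    linarith

lemma Rg_star (hn : 2 ≤ n) (i : ℕ) (hi : i + 1 < n) (ρ : Equiv.Perm (Fin n)) :
    StarConvex ℝ (sg i ρ (1 / 2)) (Rg ρ i) := by
  obtain ⟨hx1, hx2, hx3⟩ := sg_Rg hn i hi ρ (1 / 2) (by norm_num) (by norm_num)
  rintro y ⟨hy1, hy2, hy3⟩ a b ha hb hab
  refine ⟨cvx_norm ha hb hab hx1 hy1, fun p q h h' => ?_, fun p q hp hq e => ?_⟩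
  · rw [cvx_re, cvx_re]
    exact cvx_lt ha hb hab (hx2 p q h h') (hy2 p q h h')
  · have e0 : (sg i ρ (1 / 2) p).re = (sg i ρ (1 / 2) q).re := by
      have hq' : ¬ (ρ q : ℕ) = i := by omega
      rw [sg_re, sg_re, if_pos hp, if_neg hq', if_pos hq,
        show Real.pi * (1 / 2) = Real.pi / 2 by ring, Real.cos_pi_div_two]
      simp
    rw [cvx_re, cvx_re, e0] at e
    rw [cvx_im, cvx_im]
    rcases hb.eq_or_lt with rfl | hb'
    · have : a = 1 := by linarith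
      subst this
      simpa using hx3 p q hp hq e0
    · have : (y p).re = (y q).re := mul_left_cancel₀ hb'.ne' (by linarith)
      exact cvx_lt ha hb hab (hx3 p q hp hq e0) (hy3 p q hp hq this)

lemma L2 (hn : 2 ≤ n) {ρ ρ₁ : Equiv.Perm (Fin n)} {i : ℕ} (hi : i + 1 < n)
    (hρ : ∀ m, (ρ₁ m : ℕ) = if (ρ m : ℕ) = i then i + 1 else if (ρ m : ℕ) = i + 1 then i
      else (ρ m : ℕ))
    {P x z : XX n} {γ : Path P x} (h : Q ρ γ) (δ : Path x z)
    (hδ : ∀ t, (δ t).1 ∈ Rg ρ i) (hz : z.1 ∈ Ch ρ₁) : Q ρ₁ (γ.trans δ) := by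
  obtain ⟨η, h1, h2⟩ := h
  obtain ⟨η', hη'⟩ := seg_exists (Ch_sub ρ₁) (Ch_cvx ρ₁) (a := z) (b := base ρ₁) hz (bs_mem ρ₁)
  have c1 : Ch ρ ⊆ Rg ρ i := by
    rintro w ⟨a1, a2⟩
    exact ⟨a1, fun a b h _ => a2 a b h, fun a b ha hb e =>
      absurd e (a2 a b (by omega)).ne⟩
  have c2 : Ch ρ₁ ⊆ Rg ρ i := by
    rintro w ⟨a1, a2⟩
    refine ⟨a1, fun a b h h' => a2 a b ?_, fun a b ha hb e => absurd e (a2 b a ?_).ne'⟩
    · rw [hρ, hρ]; split_ifs <;> omega
    · rw [hρ, hρ]; split_ifs <;> omega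
  let sig : Path (base ρ) (base ρ₁) :=
    ⟨⟨fun s => ⟨sg i ρ s, sg_mem hn i hi ρ s⟩,
      ((sg_cd i ρ).continuous.comp continuous_subtype_val).subtype_mk _⟩, by
      refine Subtype.ext (funext fun m => ?_)
      simp only [base, bs, sg, Set.Icc.coe_zero]
      split_ifs with c c'
      · rw [c]; push_cast; simp; ring
      · rw [c']; push_cast; simp; ring
      · rfl, by
      refine Subtype.ext (funext fun m => ?_)
      simp only [base, bs, sg, Set.Icc.coe_one, hρ]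
      split_ifs with c c'
      · push_cast; simp; ring
      · push_cast; simp; ring
      · rfl⟩
  refine ⟨η', hη', (step _ sig i hi ρ (fun s => rfl) h2).hom ?_⟩
  refine (Path.Homotopic.trans_assoc _ _ _).trans
    (Path.Homotopic.trans ?_ (Path.Homotopic.trans_assoc _ _ _).symm)
  exact (Path.Homotopic.refl γ).hcomp (star_hom (Rg_sub ρ i) (Rg_star hn i hi ρ) _ _
    (trans_mem _ _ (fun t => c1 (h1 t)) fun t => sg_Rg hn i hi ρ t t.2.1 t.2.2)
    (trans_mem _ _ hδ fun t => c2 (hη' t)))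

end Pool.Agent.H.MP_813774_gt
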