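import Pool.Agent.H.MP_813774_gt.C

set_option autoImplicit false
open scoped BigOperators unitInterval Topology
open Filter

namespace Pool.Agent.H.MP_813774_gt

variable {n : ℕ}

def Bx (y : Fin n → ℂ) (r : ℝ) : Set (Fin n → ℂ) :=
  {w | ∀ m, |(w m).re - (y m).re| < r ∧ |(w m).im - (y m).im| < r}

lemma Bx_cvx (y : Fin n → ℂ) (r : ℝ) : Convex ℝ (Bx y r) := by
  intro x hx z hz a b ha hb hab m
  rw [cvx_re, cvx_im]
  have h1 := hx m
  have h2 := hz m
  simp only [abs_lt] at h1 h2 ⊢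
  have key : ∀ u u' c : ℝ, -r < u - c ∧ u - c < r → -r < u' - c ∧ u' - c < r →
      -r < a * u + b * u' - c ∧ a * u + b * u' - c < r := fun u u' c h h' => by
    have e1 := cvx_lt ha hb hab h.1 h'.1
    have e2 := cvx_lt ha hb hab h.2 h'.2
    have e3 : a * (u - c) + b * (u' - c) = a * u + b * u' - c := by
      linear_combination (-c) * hab
    have e4 : a * r + b * r = r := by linear_combination r * hab
    constructor <;> linarith
  exact ⟨key _ _ _ h1.1 h2.1, key _ _ _ h1.2 h2.2⟩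

def Good (y w : Fin n → ℂ) : Prop :=
  (∀ m, ‖w m‖ < 1) ∧ (∀ a b, (y a).re < (y b).re → (w a).re < (w b).re) ∧
    ∀ a b, (y a).im < (y b).im → (w a).im < (w b).im

lemma box_exists {y : Fin n → ℂ} (hy : y ∈ Xs n) :
    ∃ r : ℝ, 0 < r ∧ ∀ w ∈ Bx y r, Good y w := by
  have h : ∀ᶠ w in 𝓝 y, Good y w := by
    refine Eventually.and (eventually_all.2 fun m => ?_) (Eventually.and
      (eventually_all.2 fun a => eventually_all.2 fun b => ?_)
      (eventually_all.2 fun a => eventually_all.2 fun b => ?_))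
    · exact ((continuous_apply m).norm.continuousAt).eventually_lt continuousAt_const (hy.2 m)
    · by_cases h : (y a).re < (y b).re
      · exact ((cd_re a).continuous.continuousAt.eventually_lt
          (cd_re b).continuous.continuousAt h).mono fun w hw _ => hw
      · exact Eventually.of_forall fun w h' => absurd h' h
    · by_cases h : (y a).im < (y b).im
      · exact ((cd_im a).continuous.continuousAt.eventually_lt
          (cd_im b).continuous.continuousAt h).mono fun w hw _ => hw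
      · exact Eventually.of_forall fun w h' => absurd h' h
  obtain ⟨e, he, h⟩ := Metric.eventually_nhds_iff.1 h
  refine ⟨e / 2, by positivity, fun w hw => h ?_⟩
  rw [dist_pi_lt_iff he]
  intro m
  rw [dist_eq_norm]
  have := Complex.norm_le_abs_re_add_abs_im (w m - y m)
  have h1 := hw m
  simp only [Complex.sub_re, Complex.sub_im] at this
  linarith [h1.1, h1.2]

lemma Bx_nhds (y : Fin n → ℂ) {r : ℝ} (hr : 0 < r) : Bx y r ∈ 𝓝 y := by
  refine mem_of_superset (Metric.ball_mem_nhds y hr) fun w hw m => ?_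
  have h := (dist_pi_lt_iff hr).1 (Metric.mem_ball.1 hw) m
  rw [dist_eq_norm] at h
  exact ⟨lt_of_le_of_lt (by simpa using Complex.abs_re_le_norm (w m - y m)) h,
    lt_of_le_of_lt (by simpa using Complex.abs_im_le_norm (w m - y m)) h⟩

lemma Good.mem {y w : Fin n → ℂ} (hy : y ∈ Xs n) (h : Good y w) : w ∈ Xs n := by
  refine ⟨fun a b e => hy.1 (Complex.ext ?_ ?_), h.1⟩
  · rcases lt_trichotomy (y a).re (y b).re with c | c | c
    · have := h.2.1 a b c; rw [e] at this; exact absurd this (lt_irrefl _)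
    · exact c
    · have := h.2.1 b a c; rw [e] at this; exact absurd this (lt_irrefl _)
  · rcases lt_trichotomy (y a).im (y b).im with c | c | c
    · have := h.2.2 a b c; rw [e] at this; exact absurd this (lt_irrefl _)
    · exact c
    · have := h.2.2 b a c; rw [e] at this; exact absurd this (lt_irrefl _)

lemma adj (ρ ρ' : Equiv.Perm (Fin n)) (h : ρ ≠ ρ') :
    ∃ k j : Fin n, (ρ j : ℕ) = ρ k + 1 ∧ (ρ' j : ℕ) < ρ' k := by
  by_contra hc
  push Not at hc
  apply h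
  have : Monotone (ρ.symm.trans ρ') := by
    cases n with
    | zero => intro a; exact a.elim0
    | succ m =>
      refine Fin.monotone_iff_le_succ.2 fun i => ?_
      exact hc (ρ.symm i.castSucc) (ρ.symm i.succ) (by simp)
  have e := (Equiv.Perm.monotone_iff _).1 this
  ext m
  have := congrArg (fun f : Equiv.Perm (Fin n) => f (ρ m)) e
  simp at this
  rw [this]

lemma L3 (hn : 2 ≤ n) {y : Fin n → ℂ} (hy : y ∈ Xs n) {r : ℝ} (hr : ∀ w ∈ Bx y r, Good y w)
    {P z : XX n} {ρ' : Equiv.Perm (Fin n)} (hz : z.1 ∈ Bx y r) (hz' : z.1 ∈ Ch ρ')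
    (hz2 : ∀ j k, (y j).re = (y k).re → (y k).im < (y j).im → (z.1 j).re < (z.1 k).re) (M : ℕ) :
    ∀ (ρ : Equiv.Perm (Fin n)) (x : XX n), x.1 ∈ Bx y r → x.1 ∈ Ch ρ →
      (Finset.univ.filter fun p : Fin n × Fin n =>
        (ρ p.1 : ℕ) < ρ p.2 ∧ (ρ' p.2 : ℕ) < ρ' p.1).card < M →
      ∀ (γ : Path P x) (δ : Path x z), (∀ t, (δ t).1 ∈ Bx y r) → Q ρ γ → Q ρ' (γ.trans δ) := by
  have hB : Bx y r ⊆ Xs n := fun w hw => (hr w hw).mem hy
  induction M with
  | zero => intro ρ x _ _ h; omega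
  | succ M ih =>
    intro ρ x hx hx' hM γ δ hδ hQ
    by_cases hρ : ρ = ρ'
    · subst hρ
      obtain ⟨δ', hδ'⟩ := seg_exists (S := Bx y r ∩ Ch ρ) (fun w hw => hB hw.1)
        ((Bx_cvx y r).inter (Ch_cvx ρ)) (a := x) (b := z) ⟨hx, hx'⟩ ⟨hz, hz'⟩
      exact (L1 hQ δ' fun t => (hδ' t).2).hom ((Path.Homotopic.refl γ).hcomp
        (conv_hom hB (Bx_cvx y r) _ _ (fun t => (hδ' t).1) hδ))
    · obtain ⟨k, j, h1, h2⟩ := adj ρ ρ' hρ
      have a1 : (x.1 k).re < (x.1 j).re := hx'.2 k j (by omega)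
      have a2 : (z.1 j).re < (z.1 k).re := hz'.2 j k h2
      have hjk : j ≠ k := by rintro rfl; omega
      have a3 : (y j).re = (y k).re := by
        rcases lt_trichotomy (y j).re (y k).re with c | c | c
        · linarith [(hr _ hx).2.1 j k c]
        · exact c
        · linarith [(hr _ hz).2.1 k j c]
      have a4 : (y k).im < (y j).im := by
        rcases lt_trichotomy (y k).im (y j).im with c | c | c
        · exact c
        · exact absurd (hy.1 (Complex.ext a3 c.symm)) hjk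
        · linarith [hz2 k j a3.symm c]
      let ρ₁ : Equiv.Perm (Fin n) := (Equiv.swap j k).trans ρ
      have hρ₁ : ∀ m, (ρ₁ m : ℕ) = if (ρ m : ℕ) = ρ k then (ρ k : ℕ) + 1
          else if (ρ m : ℕ) = ρ k + 1 then (ρ k : ℕ) else (ρ m : ℕ) := by
        intro m
        simp only [ρ₁, Equiv.trans_apply]
        split_ifs with c c'
        · rw [ρ.injective (Fin.ext c), Equiv.swap_apply_right, h1]
        · rw [ρ.injective (Fin.ext (c'.trans h1.symm)), Equiv.swap_apply_left]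
        · rw [Equiv.swap_apply_of_ne_of_ne]
          · rintro rfl; exact c' h1
          · rintro rfl; exact c rfl
      let x₁ : Fin n → ℂ := fun m => ⟨(x.1 (Equiv.swap j k m)).re, (x.1 m).im⟩
      have b1 : x₁ ∈ Bx y r := fun m => by
        refine ⟨?_, (hx m).2⟩
        have : (y m).re = (y (Equiv.swap j k m)).re := by
          rw [Equiv.swap_apply_def]
          split_ifs with c c'
          · rw [c, a3]
          · rw [c', a3]
          · rfl
        rw [this]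
        exact (hx _).1
      have b2 : x₁ ∈ Ch ρ₁ := ⟨(hr _ b1).1, fun a b h => hx'.2 _ _ h⟩
      let R' : Set (Fin n → ℂ) := {w | ∀ a b, (ρ a : ℕ) < ρ b →
        ¬ ((ρ a : ℕ) = ρ k ∧ (ρ b : ℕ) = ρ k + 1) → (w a).re < (w b).re}
      have hR' : Convex ℝ R' := by
        intro u hu w hw a b ha hb hab p q h h'
        rw [cvx_re, cvx_re]
        exact cvx_lt ha hb hab (hu p q h h') (hw p q h h')
      obtain ⟨δ₁, hδ₁⟩ := seg_exists (S := Bx y r ∩ R') (fun w hw => hB hw.1)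
        ((Bx_cvx y r).inter hR') (a := x) (b := ⟨x₁, hB b1⟩) ⟨hx, fun a b h _ => hx'.2 a b h⟩
        ⟨b1, fun a b h h' => b2.2 a b (by rw [hρ₁, hρ₁]; split_ifs <;> omega)⟩
      obtain ⟨δ₂, hδ₂⟩ := seg_exists hB (Bx_cvx y r) (a := ⟨x₁, hB b1⟩) (b := z) b1 hz
      have q1 : Q ρ₁ (γ.trans δ₁) := by
        refine L2 hn (i := ρ k) (by have := (ρ j).2; omega) hρ₁ hQ δ₁ (fun t => ?_) b2
        refine ⟨(hr _ (hδ₁ t).1).1, (hδ₁ t).2, fun a b ha hb _ => ?_⟩
        rw [ρ.injective (Fin.ext ha), ρ.injective (Fin.ext (hb.trans h1.symm))]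
        exact (hr _ (hδ₁ t).1).2.2 k j a4
      have q2 := ih ρ₁ ⟨x₁, hB b1⟩ b1 b2 ?_ _ δ₂ hδ₂ q1
      · refine q2.hom ((Path.Homotopic.trans_assoc _ _ _).trans
          ((Path.Homotopic.refl γ).hcomp (conv_hom hB (Bx_cvx y r) _ _
            (trans_mem _ _ (fun t => (hδ₁ t).1) hδ₂) hδ)))
      · refine lt_of_lt_of_le (Finset.card_lt_card ?_) (Nat.lt_succ_iff.1 hM)
        rw [Finset.ssubset_iff_of_subset]
        · refine ⟨(k, j), by simp only [Finset.mem_filter, Finset.mem_univ, true_and]; omega, ?_⟩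
          simp only [Finset.mem_filter, Finset.mem_univ, true_and, hρ₁]
          split_ifs <;> omega
        · rintro ⟨a, b⟩
          simp only [Finset.mem_filter, Finset.mem_univ, true_and, hρ₁]
          rintro ⟨c1, c2⟩
          refine ⟨?_, c2⟩
          by_contra c3
          have : (ρ a : ℕ) = ρ k + 1 ∧ (ρ b : ℕ) = ρ k := by
            revert c1; split_ifs <;> omega
          rw [ρ.injective (Fin.ext (this.1.trans h1.symm)), ρ.injective (Fin.ext this.2)] at c2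
          omega

lemma ch_exists (x : XX n) (h : ∀ a b, (x.1 a).re = (x.1 b).re → a = b) : ∃ ρ, x.1 ∈ Ch ρ := by
  refine ⟨(Tuple.sort fun m => (x.1 m).re).symm, x.2.2, fun a b hab => ?_⟩
  have h1 := Tuple.monotone_sort (fun m => (x.1 m).re) (Fin.le_def.2 hab.le)
  simp only [Function.comp_apply, Equiv.apply_symm_apply] at h1
  refine lt_of_le_of_ne h1 fun e => ?_
  rw [h a b e] at hab
  exact lt_irrefl _ hab

lemma glob (hn : 2 ≤ n) (F : C(ℝ, XX n)) (ρ₀ : Equiv.Perm (Fin n)) (h0 : F 0 = base ρ₀)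
    (hR : ∀ t₀, 0 ≤ t₀ → t₀ < 1 → ∀ᶠ t in 𝓝[>] t₀, ∀ j k, ((F t₀).1 j).re = ((F t₀).1 k).re →
      ((F t₀).1 k).im < ((F t₀).1 j).im → ((F t).1 j).re < ((F t).1 k).re)
    (hL : ∀ t₀, 0 < t₀ → t₀ ≤ 1 → ∀ᶠ t in 𝓝[<] t₀, ∀ a b,
      ((F t).1 a).re = ((F t).1 b).re → a = b)
    (t : ℝ) (ht0 : 0 ≤ t) (ht1 : t ≤ 1) (ρ : Equiv.Perm (Fin n)) (hρ : (F t).1 ∈ Ch ρ) :
    Q ρ ((Path.segment 0 t).map F.continuous) := by
  let B : Set ℝ := {t | 0 ≤ t ∧ t ≤ 1 ∧ ∃ ρ, (F t).1 ∈ Ch ρ ∧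
    ¬ Q ρ ((Path.segment 0 t).map F.continuous)}
  by_contra hc
  have hne : B.Nonempty := ⟨t, ht0, ht1, ρ, hρ, hc⟩
  have hbd : BddBelow B := ⟨0, fun s hs => hs.1⟩
  set t₀ := sInf B with ht₀
  have c0 : 0 ≤ t₀ := le_csInf hne fun s hs => hs.1
  have c1 : t₀ ≤ 1 := (csInf_le hbd ⟨ht0, ht1, ρ, hρ, hc⟩).trans ht1
  obtain ⟨r, hr, hbox⟩ := box_exists (y := (F t₀).1) (F t₀).2
  have e1 : ∀ᶠ s in 𝓝 t₀, (F s).1 ∈ Bx (F t₀).1 r :=
    (continuous_subtype_val.comp F.continuous).continuousAt.eventually_mem (Bx_nhds _ hr)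
  obtain ⟨e, he, e1⟩ := Metric.eventually_nhds_iff.1 e1
  -- a bad time close to the right
  have hb : ∃ b ∈ B, t₀ ≤ b ∧ b < t₀ + e ∧ ∀ j k, ((F t₀).1 j).re = ((F t₀).1 k).re →
      ((F t₀).1 k).im < ((F t₀).1 j).im → ((F b).1 j).re < ((F b).1 k).re := by
    by_cases hB : t₀ ∈ B
    · refine ⟨t₀, hB, le_rfl, by linarith, fun j k h1 h2 => ?_⟩
      obtain ⟨_, _, ρ₁, h3, _⟩ := hB
      exfalso
      rcases lt_trichotomy (ρ₁ j : ℕ) (ρ₁ k) with c | c | c
      · exact (h3.2 j k c).ne h1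
      · rw [ρ₁.injective (Fin.ext c)] at h2; exact lt_irrefl _ h2
      · exact (h3.2 k j c).ne h1.symm
    · have c2 : t₀ < 1 := by
        refine lt_of_le_of_ne c1 fun c => hB ?_
        obtain ⟨s, hs⟩ := hne
        have : s = t₀ := le_antisymm (c ▸ hs.2.1) (csInf_le hbd hs)
        rwa [← this]
      obtain ⟨u, hu, hu'⟩ := (mem_nhdsGT_iff_exists_Ioo_subset).1 (hR t₀ c0 c2)
      obtain ⟨b, hb, hb'⟩ := exists_lt_of_csInf_lt hne (lt_min hu (by linarith : t₀ < t₀ + e))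
      have hb1 : t₀ ≤ b := csInf_le hbd hb
      refine ⟨b, hb, hb1, lt_of_lt_of_le hb' (min_le_right _ _), hu' ⟨?_, lt_of_lt_of_le hb'
        (min_le_left _ _)⟩⟩
      exact lt_of_le_of_ne hb1 fun c => hB (c ▸ hb)
  have ha : ∃ a, t₀ - e < a ∧ a ≤ t₀ ∧ ∃ ρ₁, (F a).1 ∈ Ch ρ₁ ∧
      Q ρ₁ ((Path.segment 0 a).map F.continuous) := by
    rcases c0.eq_or_lt with c | c
    · refine ⟨0, by linarith, c0, ρ₀, by rw [h0]; exact bs_mem ρ₀, ?_⟩
      refine ⟨(Path.refl _).cast rfl h0.symm, fun s => ?_, Or.inl ⟨_, Path.Homotopic.refl _, ?_⟩⟩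
      · show (F 0).1 ∈ _
        rw [h0]; exact bs_mem ρ₀
      · intro s
        rw [Path.trans_apply]
        split_ifs <;> simp
    · obtain ⟨a, h1, h2⟩ := ((hL t₀ c c1).and (Ioo_mem_nhdsLT
        (max_lt c (by linarith : t₀ - e < t₀)))).exists
      obtain ⟨ρ₁, h3⟩ := ch_exists _ h1
      refine ⟨a, lt_of_le_of_lt (le_max_right _ _) h2.1, h2.2.le, ρ₁, h3, ?_⟩
      by_contra h4
      have : t₀ ≤ a := csInf_le hbd ⟨(lt_of_le_of_lt (le_max_left _ _) h2.1).le,
        h2.2.le.trans c1, ρ₁, h3, h4⟩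
      linarith [h2.2]
  obtain ⟨b, ⟨_, _, ρ₂, hb2, hb3⟩, hb4, hb5, hb6⟩ := hb
  obtain ⟨a, ha1, ha2, ρ₁, ha3, ha4⟩ := ha
  have hin : ∀ s, a ≤ s → s ≤ b → (F s).1 ∈ Bx (F t₀).1 r := fun s h1 h2 =>
    e1 (by rw [Real.dist_eq, abs_lt]; constructor <;> linarith)
  have hab : a ≤ b := ha2.trans hb4
  have q := L3 hn (F t₀).2 hbox (P := F 0) (hin b hab le_rfl) hb2 hb6 _ ρ₁ (F a)
    (hin a le_rfl hab) ha3 (Nat.lt_succ_self _) _ ((Path.segment a b).map F.continuous)
    (fun s => by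
      have : Path.segment a b s ∈ segment ℝ a b := by rw [← Path.range_segment]; exact ⟨s, rfl⟩
      rw [segment_eq_Icc hab] at this
      exact hin _ this.1 this.2) ha4
  apply hb3
  refine q.hom ?_
  rw [← Path.map_trans]
  exact (SimplyConnectedSpace.paths_homotopic _ _).map F

end Pool.Agent.H.MP_813774_gt
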