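import Pool.Agent.H.MP_813774_gt.D

set_option autoImplicit false
open scoped BigOperators unitInterval Topology
open Filter

namespace Pool.Agent.H.MP_813774_gt

variable {n : ℕ}

def Time {P q : XX n} (d : Path P q) : Prop :=
  ∃ (k : ℕ) (τ : ℕ → ℝ), τ 0 = 0 ∧ τ k = 1 ∧ ∀ j : ℕ, j < k →
    τ j < τ (j + 1) ∧
    ContDiffOn ℝ ((⊤ : ℕ∞) : WithTop ℕ∞) (fun t : ℝ => (d.extend t).1)
      (Set.Icc (τ j) (τ (j + 1))) ∧
    ∀ t ∈ Set.Icc (τ j) (τ (j + 1)),
      gg ((d.extend t).1)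
        (derivWithin (fun t : ℝ => (d.extend t).1) (Set.Icc (τ j) (τ (j + 1))) t)
        (derivWithin (fun t : ℝ => (d.extend t).1) (Set.Icc (τ j) (τ (j + 1))) t) < 0 ∧
      gg ((d.extend t).1)
        (derivWithin (fun t : ℝ => (d.extend t).1) (Set.Icc (τ j) (τ (j + 1))) t)
        (TT ((d.extend t).1)) < 0

lemma word_time (hn : 2 ≤ n) {P q : XX n} (c : Path P q) (h : Word c) :
    ∃ d : Path P q, d.Homotopic c ∧ Time d := by
  obtain ⟨Γ, hΓ, k, hk, h⟩ := h
  have hk' : (0 : ℝ) < k := by exact_mod_cast hk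
  refine ⟨Γ, hΓ, k, fun j => j / k, by simp, div_self hk'.ne', fun j hj => ?_⟩
  obtain ⟨i, hi, ρ, h⟩ := h j hj
  have hlt : ((j : ℕ) : ℝ) / k < ((j + 1 : ℕ) : ℝ) / k := by
    push_cast; gcongr; linarith
  have hj2 : (j : ℝ) + 1 ≤ k := by exact_mod_cast hj
  have heq : ∀ t ∈ Set.Icc (((j : ℕ) : ℝ) / k) (((j + 1 : ℕ) : ℝ) / k),
      (Γ.extend t).1 = sg i ρ (k * t - j) := by
    intro t ht
    have h1 := (div_le_iff₀ hk').1 ht.1
    have h2 := (le_div_iff₀ hk').1 ht.2
    push_cast at h2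
    have hj0 : (0 : ℝ) ≤ j := by positivity
    have hm : t ∈ I := ⟨by nlinarith, by nlinarith⟩
    rw [Path.extend_apply _ hm]
    funext m
    exact h _ _ (by linarith) (by linarith) (by field_simp; ring) m
  refine ⟨hlt, ?_, fun t ht => ?_⟩
  · refine ContDiffOn.congr (f := fun t : ℝ => sg i ρ (k * t - j)) ?_ heq
    exact ((sg_cd i ρ).comp ((contDiff_const.mul contDiff_id).sub contDiff_const)).contDiffOn
  · have hd : HasDerivAt (fun t : ℝ => sg i ρ (k * t - j)) ((k : ℝ) • sv i ρ (k * t - j)) t := by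
      have h1 : HasDerivAt (fun t : ℝ => (k : ℝ) * t - j) k t := by
        simpa using ((hasDerivAt_id t).const_mul (k : ℝ)).sub_const (j : ℝ)
      exact (sg_deriv i ρ (k * t - j)).scomp t h1
    have hd2 : derivWithin (fun t : ℝ => (Γ.extend t).1)
        (Set.Icc (((j : ℕ) : ℝ) / k) (((j + 1 : ℕ) : ℝ) / k)) t =
        (k : ℝ) • sv i ρ (k * t - j) :=
      (hd.hasDerivWithinAt.congr heq (heq t ht)).derivWithin (uniqueDiffOn_Icc hlt t ht)
    rw [hd2, heq t ht]
    obtain ⟨t1, t2⟩ := sg_time hn i hi ρ (k * t - j)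
    have t3 : gg (sg i ρ (k * t - j)) ((k : ℝ) • sv i ρ (k * t - j))
        ((k : ℝ) • sv i ρ (k * t - j)) < 0 := by
      simp only [map_smul, ContinuousLinearMap.smul_apply, smul_eq_mul]
      exact mul_neg_of_pos_of_neg hk' (mul_neg_of_pos_of_neg hk' t1)
    refine ⟨t3, (fut_iff hn (sg_mem hn i hi ρ _) _ t3).2 ?_⟩
    simp only [map_smul, smul_eq_mul]
    positivity

lemma find_R (τ : ℕ → ℝ) (t : ℝ) (h0 : τ 0 ≤ t) (k : ℕ) (h : t < τ k) :
    ∃ j < k, τ j ≤ t ∧ t < τ (j + 1) := by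
  induction k with
  | zero => linarith
  | succ k ih =>
    by_cases c : t < τ k
    · obtain ⟨j, h1, h2⟩ := ih c
      exact ⟨j, by omega, h2⟩
    · exact ⟨k, by omega, not_lt.1 c, h⟩

lemma find_L (τ : ℕ → ℝ) (t : ℝ) (h0 : τ 0 < t) (k : ℕ) (h : t ≤ τ k) :
    ∃ j < k, τ j < t ∧ t ≤ τ (j + 1) := by
  induction k with
  | zero => linarith
  | succ k ih =>
    by_cases c : t ≤ τ k
    · obtain ⟨j, h1, h2⟩ := ih c
      exact ⟨j, by omega, h2⟩
    · exact ⟨k, by omega, not_le.1 c, h⟩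

lemma slope_neg {f : ℝ → Fin n → ℂ} {v : Fin n → ℂ} {s : Set ℝ} {t₀ : ℝ} (hs : t₀ ∉ s)
    (h : HasDerivWithinAt f v s t₀) {j k : Fin n} (hr : (f t₀ j).re = (f t₀ k).re)
    (hv : (v j).re < (v k).re) :
    ∀ᶠ t in 𝓝[s] t₀, (t - t₀)⁻¹ * ((f t j).re - (f t k).re) < 0 := by
  have h1 : HasDerivWithinAt (fun t => (f t j).re - (f t k).re) ((v j).re - (v k).re) s t₀ :=
    ((Complex.reCLM.comp (pr j)).hasFDerivAt.comp_hasDerivWithinAt t₀ h).sub
      ((Complex.reCLM.comp (pr k)).hasFDerivAt.comp_hasDerivWithinAt t₀ h)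
  have h2 := (hasDerivWithinAt_iff_tendsto_slope' hs).1 h1
  refine (h2.eventually (gt_mem_nhds (sub_neg.2 hv))).mono fun t ht => ?_
  simpa [slope, hr] using ht

lemma time_pos (hn : 2 ≤ n) {P q : XX n} (hP : P = base 1) (ρ : Equiv.Perm (Fin n))
    (hq : q = base ρ) (d : Path P q) (h : Time d) : Pos d := by
  obtain ⟨k, τ, h0, h1, h⟩ := h
  have hT : ((⊤ : ℕ∞) : WithTop ℕ∞) ≠ 0 := by simp
  let F : C(ℝ, XX n) := ⟨d.extend, d.continuous_extend⟩
  have F0 : F 0 = P := d.extend_zero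
  have F1 : F 1 = q := d.extend_one
  have key := glob hn F 1 (F0.trans hP) ?_ ?_ 1 zero_le_one le_rfl ρ
    (by rw [F1, hq]; exact bs_mem ρ)
  · obtain ⟨η, h2, h3⟩ := key
    have e1 : F 1 = base ρ := F1.trans hq
    have h4 : η.Homotopic ((Path.refl _).cast rfl e1.symm) :=
      conv_hom (Ch_sub ρ) (Ch_cvx ρ) _ _ h2 fun s => by
        show (F 1).1 ∈ _
        rw [e1]; exact bs_mem ρ
    have h5 := h3.hom ((Path.Homotopic.refl _).hcomp h4)
    have gen : ∀ (P' y y' : XX n) (γ : Path P' y) (e0 : P = P') (e : y' = y) (e' : q = y),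
        Pos (γ.trans ((Path.refl _).cast rfl e)) → Pos (γ.cast e0 e') := by
      intro P' y y' γ e0 e e' hp
      subst e0 e e'
      exact hp.hom (Path.Homotopic.trans_refl γ)
    have h6 := gen _ _ _ _ F0.symm e1.symm F1.symm h5
    convert h6 using 1
    ext1
    funext s
    simp [F, AffineMap.lineMap_apply]
  · intro t₀ c0 c1
    obtain ⟨j, hj, a1, a2⟩ := find_R τ t₀ (by linarith) k (by linarith)
    obtain ⟨b1, b2, b3⟩ := h j hj
    have hm : t₀ ∈ Set.Icc (τ j) (τ (j + 1)) := ⟨a1, a2.le⟩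
    have hd := ((b2.differentiableOn hT t₀ hm).hasDerivWithinAt).mono_of_mem_nhdsWithin
      (Icc_mem_nhdsGT_of_mem ⟨a1, a2⟩)
    refine eventually_all.2 fun a => eventually_all.2 fun b => ?_
    by_cases hr : ((F t₀).1 a).re = ((F t₀).1 b).re
    · by_cases hi : ((F t₀).1 b).im < ((F t₀).1 a).im
      · have w := wall hn (d.extend t₀).2 _ (b3 t₀ hm).1 (b3 t₀ hm).2 hr hi
        filter_upwards [slope_neg (by simp) hd hr w, self_mem_nhdsWithin] with t e1 e2 _ _
        have e3 : 0 < (t - t₀)⁻¹ := inv_pos.2 (sub_pos.2 e2)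
        have := neg_of_mul_neg_right e1 e3.le
        exact sub_neg.1 this
      · exact Eventually.of_forall fun t _ h' => absurd h' hi
    · exact Eventually.of_forall fun t h' => absurd h' hr
  · intro t₀ c0 c1
    obtain ⟨j, hj, a1, a2⟩ := find_L τ t₀ (by linarith) k (by linarith)
    obtain ⟨b1, b2, b3⟩ := h j hj
    have hm : t₀ ∈ Set.Icc (τ j) (τ (j + 1)) := ⟨a1.le, a2⟩
    have hd := ((b2.differentiableOn hT t₀ hm).hasDerivWithinAt).mono_of_mem_nhdsWithin
      (Icc_mem_nhdsLT_of_mem ⟨a1, a2⟩)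
    refine eventually_all.2 fun a => eventually_all.2 fun b => ?_
    by_cases hr : ((F t₀).1 a).re = ((F t₀).1 b).re
    · rcases lt_trichotomy ((F t₀).1 b).im ((F t₀).1 a).im with hi | hi | hi
      · have w := wall hn (d.extend t₀).2 _ (b3 t₀ hm).1 (b3 t₀ hm).2 hr hi
        filter_upwards [slope_neg (by simp) hd hr w] with t e1 e2
        have e2' : ((d.extend t).1 a).re = ((d.extend t).1 b).re := e2
        rw [e2'] at e1; simp at e1
      · exact Eventually.of_forall fun t _ => (F t₀).2.1 (Complex.ext hr hi.symm)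
      · have w := wall hn (d.extend t₀).2 _ (b3 t₀ hm).1 (b3 t₀ hm).2 hr.symm hi
        filter_upwards [slope_neg (by simp) hd hr.symm w] with t e1 e2
        have e2' : ((d.extend t).1 a).re = ((d.extend t).1 b).re := e2
        rw [e2'] at e1; simp at e1
    · have hc : ContinuousAt (fun t => ((F t).1 a).re - ((F t).1 b).re) t₀ := by
        have := continuous_subtype_val.comp F.continuous
        exact (((cd_re a).continuous.comp this).sub ((cd_re b).continuous.comp this)).continuousAt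
      refine ((hc.eventually_ne (sub_ne_zero.2 hr)).filter_mono nhdsWithin_le_nhds).mono
        fun t e1 e2 => absurd (sub_eq_zero.2 e2) e1

end Pool.Agent.H.MP_813774_gt
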